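import Pool.Agent.H85.BC.All2

/-!
# Non-spatial isomorphisms between corners make a non-Gamma II₁ factor bc-good
-/

set_option autoImplicit false

namespace Pool.Agent.Results.MP_0e7a83_an.CornerIsomorphisms

open Pool.Agent.H85.BC

/-- Let `N` be a II₁ factor without property Gamma.  If some `*`-isomorphism between two
corners `p N p` and `q N q` (for instance an automorphism of `N`) is not implemented by a
partial isometry of `N`, then `N` is bc-good. -/
theorem result (H : Type) [NormedAddCommGroup H] [InnerProductSpace ℂ H] [CompleteSpace H]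
    (N : VonNeumannAlgebra H) (ξ : H) (hN : IsIIOneFactor N ξ) (hG : ¬ HasGamma N ξ)
    (U : Ultrafilter ℕ)
    (p : H →L[ℂ] H) (hpN : p ∈ N) (hp : IsStarProjection p) (hp0 : p ≠ 0)
    (q : H →L[ℂ] H) (hqN : q ∈ N) (hq : IsStarProjection q) (hq0 : q ≠ 0)
    (θ : (H →L[ℂ] H) → (H →L[ℂ] H)) (hθ : CornerIso N p q θ) (hns : ¬ Spatial N p q θ) :
    BCGood U N ξ := by
  obtain ⟨e, heN, he, he0, hpe, p', hp'N, hp', hp'0, hp'1, θ', hθ', hsp⟩ :=
    f_AMP H N ξ hN p hpN hp hp0 q hqN hq hq0 θ hθ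
  refine f_BCT H N ξ hN (f_UG H N ξ hN hG) U p' hp'N hp' hp'0 hp'1 θ' hθ' (fun h => ?_)
  exact hns (f_SPX H N ξ hN p hpN hp q hqN hq θ hθ e heN he he0 hpe (hsp h))

end Pool.Agent.Results.MP_0e7a83_an.CornerIsomorphisms
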