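import Pool.Agent.H85.BC.All
import Pool.Agent.H85.BC.MU

/-!
# Finite index subfactors of non-Gamma factors which are not bc-good
-/

set_option autoImplicit false

namespace Pool.Agent.Results.MP_0e7a83_an.FiniteIndexSubfactors

open Pool.Agent.H85.BC

/-- Let `N` be a II₁ factor without property Gamma which is not bc-good.  Then every finite
index subfactor `P` of `N` is the commutant in `N` of a system of `n × n` matrix units. -/
theorem result (H : Type) [NormedAddCommGroup H] [InnerProductSpace ℂ H] [CompleteSpace H]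
    (N : VonNeumannAlgebra H) (ξ : H) (hN : IsIIOneFactor N ξ) (hG : ¬ HasGamma N ξ)
    (U : Ultrafilter ℕ) (hbc : ¬ BCGood U N ξ)
    (P : VonNeumannAlgebra H) (hPN : ∀ x ∈ P, x ∈ N) (hP : IsFactor P)
    (hind : FiniteIndex P N ξ) :
    ∃ (n : ℕ) (e : Fin n → Fin n → (H →L[ℂ] H)), MatrixUnits N n e ∧
      ∀ x : H →L[ℂ] H, x ∈ P ↔ x ∈ N ∧ ∀ i j, x * e i j = e i j * x :=
  pf_MU (f_W H) (f_SCAL H) (f_MINP H) N ξ hN.traceVector hN.factor (f_UG H N ξ hN hG) U hbc P
    hPN hP hind

end Pool.Agent.Results.MP_0e7a83_an.FiniteIndexSubfactors
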