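import Pool.Agent.H85.BC.All

/-!
# Rigidity of subalgebras of non-Gamma factors which are not bc-good
-/

set_option autoImplicit false

namespace Pool.Agent.Results.MP_0e7a83_an.SubalgebraRigidity

open Pool.Agent.H85.BC

/-- Let `N` be a II₁ factor without property Gamma which is not bc-good.  For every `η > 0`
there are a finite set `F ⊆ N` and `δ > 0` such that every von Neumann subalgebra `A` of `N`
which contains `F` up to `δ` in `2`-norm contains a corner of `N` of trace more than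
`1 - η`. -/
theorem result (H : Type) [NormedAddCommGroup H] [InnerProductSpace ℂ H] [CompleteSpace H]
    (N : VonNeumannAlgebra H) (ξ : H) (hN : IsIIOneFactor N ξ) (hG : ¬ HasGamma N ξ)
    (U : Ultrafilter ℕ) (hbc : ¬ BCGood U N ξ) (η : ℝ) (hη : 0 < η) :
    ∃ F : Finset (H →L[ℂ] H), (∀ y ∈ F, y ∈ N) ∧ ∃ δ : ℝ, 0 < δ ∧
      ∀ A : VonNeumannAlgebra H, (∀ a ∈ A, a ∈ N) → (∀ y ∈ F, ∃ a ∈ A, ‖(y - a) ξ‖ < δ) →
      ∃ p ∈ N, IsStarProjection p ∧ 1 - η < ‖p ξ‖ ^ 2 ∧ (∀ a ∈ A, p * a = a * p) ∧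
        ∀ x ∈ N, p * x * p ∈ gen ((A : Set (H →L[ℂ] H)) ∪ {p}) :=
  f_UNI H N ξ hN (f_UG H N ξ hN hG) U hbc η hη

end Pool.Agent.Results.MP_0e7a83_an.SubalgebraRigidity
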